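import Mathlib
import Pool.Agent.Helper76.DiagFilter

set_option autoImplicit false
universe u

/-!
# MP_ff24f1_gt: a space with a cocompact pretty base need not be strongly zero-dimensional
-/

namespace Pool.Agent.Results.MP_ff24f1_gt.NotStronglyZeroDim

open Set TopologicalSpace

/-- `𝓑` is a pretty base of `X`: a base of clopen sets such that for every countable `𝒞 ⊆ 𝓑` and
every `𝒟 ⊆ 𝓑` with every member of `𝒞` disjoint from every member of `𝒟`, some `B ∈ 𝓑` contains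
the union of `𝒞` and misses every member of `𝒟`. -/
def IsPrettyBase {X : Type u} [TopologicalSpace X] (𝓑 : Set (Set X)) : Prop :=
  IsTopologicalBasis 𝓑 ∧ (∀ B ∈ 𝓑, IsClopen B) ∧
    ∀ 𝒞 𝒟 : Set (Set X), 𝒞 ⊆ 𝓑 → 𝒟 ⊆ 𝓑 → 𝒞.Countable → (∀ C ∈ 𝒞, ∀ D ∈ 𝒟, C ∩ D = ∅) →
      ∃ B ∈ 𝓑, ⋃₀ 𝒞 ⊆ B ∧ ∀ D ∈ 𝒟, B ∩ D = ∅

/-- The cotopology of `𝓑`: the topology generated by the complements of closures of members
of `𝓑`. -/
abbrev cotopology {X : Type u} [TopologicalSpace X] (𝓑 : Set (Set X)) : TopologicalSpace X :=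
  generateFrom {U | ∃ B ∈ 𝓑, U = (closure B)ᶜ}

/-- `𝓑` is cocompact: its cotopology is compact. -/
def IsCocompact {X : Type u} [TopologicalSpace X] (𝓑 : Set (Set X)) : Prop :=
  @CompactSpace X (cotopology 𝓑)

/-- `X` is strongly zero-dimensional: the clopen sets of the Stone-Cech compactification
of `X` form a base. -/
def StronglyZeroDimensional (X : Type u) [TopologicalSpace X] : Prop :=
  IsTopologicalBasis {U : Set (StoneCech X) | IsClopen U}

/-- There is a Tychonoff space with a cocompact pretty base which is not strongly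
zero-dimensional. -/
theorem result : ∃ (X : Type u) (_ : TopologicalSpace X), T35Space X ∧
    (∃ 𝓑 : Set (Set X), IsPrettyBase 𝓑 ∧ IsCocompact 𝓑) ∧ ¬ StronglyZeroDimensional X := by
  obtain ⟨D, L, he, hi, hu, F, hF, hF01, hno⟩ := Pool.Agent.Helper76.exists_example'.{u}
  refine ⟨Pool.Agent.Helper76.Ult L, inferInstance, Pool.Agent.Helper76.Ult.t35Space he hi,
    ⟨Pool.Agent.Helper76.Ult.base L, ⟨Pool.Agent.Helper76.Ult.isTopologicalBasis he hi, ?_, ?_⟩,
      Pool.Agent.Helper76.Ult.cocompact hi⟩, ?_⟩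
  · rintro _ ⟨B, hB, rfl⟩
    exact Pool.Agent.Helper76.Ult.isClopen_hat hB
  · intro 𝒞 𝒟 h𝒞 h𝒟 hc hd
    obtain ⟨B, hB, hB1, hB2⟩ := Pool.Agent.Helper76.Ult.pretty he hi hu 𝒞 𝒟 h𝒞 h𝒟 hc
      (fun C hC E hE => Set.disjoint_iff_inter_eq_empty.2 (hd C hC E hE))
    exact ⟨B, hB, Set.sUnion_subset hB1, fun E hE => Set.disjoint_iff_inter_eq_empty.1 (hB2 E hE)⟩
  · intro hszd
    apply hno
    -- the extension of `F` to the Stone-Cech compactification
    let F' : Pool.Agent.Helper76.Ult L → Icc (0 : ℝ) 1 := fun x => ⟨F x, hF01 x⟩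
    have hF' : Continuous F' := hF.subtype_mk _
    let bF : StoneCech (Pool.Agent.Helper76.Ult L) → Icc (0 : ℝ) 1 := stoneCechExtend hF'
    have hbF : Continuous bF := continuous_stoneCechExtend hF'
    have hbFx : ∀ x, bF (stoneCechUnit x) = F' x := fun x =>
      congrFun (stoneCechExtend_extends hF') x
    let z0 : Icc (0 : ℝ) 1 := ⟨0, by simp⟩
    let z1 : Icc (0 : ℝ) 1 := ⟨1, by simp⟩
    have hz : z0 ≠ z1 := fun h => zero_ne_one (congrArg Subtype.val h)
    have hK : IsCompact (bF ⁻¹' {z0}) := (isClosed_singleton.preimage hbF).isCompact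
    have hO : IsOpen (bF ⁻¹' {z1}ᶜ) := isOpen_compl_singleton.preimage hbF
    have hKO : bF ⁻¹' {z0} ⊆ bF ⁻¹' {z1}ᶜ := by
      intro y hy
      simp only [mem_preimage, mem_singleton_iff, mem_compl_iff] at hy ⊢
      rw [hy]
      exact hz
    -- a clopen set in between
    obtain ⟨G, hG, hKG, hGO⟩ : ∃ G : Set (StoneCech (Pool.Agent.Helper76.Ult L)), IsClopen G ∧
        bF ⁻¹' {z0} ⊆ G ∧ G ⊆ bF ⁻¹' {z1}ᶜ := by
      have h1 : ∀ y ∈ bF ⁻¹' {z0}, ∃ V : Set (StoneCech (Pool.Agent.Helper76.Ult L)),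
          IsClopen V ∧ y ∈ V ∧ V ⊆ bF ⁻¹' {z1}ᶜ := by
        intro y hy
        obtain ⟨V, hV, hyV, hVO⟩ := hszd.exists_subset_of_mem_open (hKO hy) hO
        exact ⟨V, hV, hyV, hVO⟩
      choose! V hV hyV hVO using h1
      obtain ⟨t, ht, htK⟩ := hK.elim_nhds_subcover V
        (fun y hy => (hV y hy).isOpen.mem_nhds (hyV y hy))
      refine ⟨⋃ y ∈ t, V y, ?_, htK, ?_⟩
      · exact isClopen_biUnion_finset fun y hy => hV y (ht y hy)
      · exact iUnion₂_subset fun y hy => hVO y (ht y hy)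
    refine ⟨stoneCechUnit ⁻¹' G, hG.preimage continuous_stoneCechUnit, ?_, ?_⟩
    · intro x hx
      apply hKG
      rw [mem_preimage, hbFx]
      exact Subtype.ext hx
    · intro x hx hxG
      have := hGO hxG
      rw [mem_preimage, hbFx] at this
      exact this (Subtype.ext hx)

end Pool.Agent.Results.MP_ff24f1_gt.NotStronglyZeroDim
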